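import Pool.Agent.Work.MP_72ebf0_an.Welch11

/-!
A surjective LR-separated cellular automaton over a prime field with neither end exponent
coprime to `p - 1`.  The witness is `p = 11`, radius 2, local rule
`f (x₁, …, x₅) = π (x₂, x₃) + x₁ ^ 10 + x₄ ^ 5` with `π` the table `Welch11.tab`.
Positions are numbered from 0, so cell `i` reads `x (i - ρ + j)` at position `j ≤ 2 ρ`.
-/

namespace Pool.Agent.Work.MP_72ebf0_an.Parked.Counterexample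

open Pool.Agent.Work.MP_72ebf0_an.Welch11

theorem result : ∃ (p ρ : ℕ) (l r : Fin (2 * ρ + 1)) (a b : (ZMod p)ˣ) (q s : ℕ)
    (π : (Set.Ioo l r → ZMod p) → ZMod p) (f : (Fin (2 * ρ + 1) → ZMod p) → ZMod p),
    p.Prime ∧ 3 ≤ p ∧ l < r ∧ 1 ≤ q ∧ 1 ≤ s ∧
    (∀ x : Fin (2 * ρ + 1) → ZMod p,
      f x = π (fun j => x j) + (a : ZMod p) * x l ^ q + (b : ZMod p) * x r ^ s) ∧
    Function.Surjective (fun (x : ℤ → ZMod p) (i : ℤ) =>
      f (fun j : Fin (2 * ρ + 1) => x (i - ρ + (j : ℕ)))) ∧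
    ¬ Nat.Coprime q (p - 1) ∧ ¬ Nat.Coprime s (p - 1) ∧
    p = 11 ∧ ρ = 2 ∧ (l : ℕ) = 0 ∧ (r : ℕ) = 3 ∧ a = 1 ∧ b = 1 ∧ q = 10 ∧ s = 5 := by
  refine ⟨11, 2, 0, 3, 1, 1, 10, 5,
    fun z => mid (z ⟨1, by decide, by decide⟩) (z ⟨2, by decide, by decide⟩),
    fun x => mid (x 1) (x 2) + x 0 ^ 10 + x 3 ^ 5, by norm_num, by norm_num, by decide,
    by norm_num, by norm_num, fun x => by simp, ?_, by norm_num, by norm_num, rfl, rfl, rfl,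
    rfl, rfl, rfl, rfl, rfl⟩
  intro y
  obtain ⟨x, hx⟩ := surj (fun i => y (i + 2))
  refine ⟨x, funext fun i => ?_⟩
  have h := hx (i - 2)
  simp only [sub_add_cancel] at h
  rw [← h]
  have e0 : i - ((2 : ℕ) : ℤ) + (((0 : Fin (2 * 2 + 1)) : ℕ) : ℤ) = i - 2 := by simp
  have e1 : i - ((2 : ℕ) : ℤ) + (((1 : Fin (2 * 2 + 1)) : ℕ) : ℤ) = i - 2 + 1 := by simp
  have e2 : i - ((2 : ℕ) : ℤ) + (((2 : Fin (2 * 2 + 1)) : ℕ) : ℤ) = i := by simp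
  have e3 : i - ((2 : ℕ) : ℤ) + (((3 : Fin (2 * 2 + 1)) : ℕ) : ℤ) = i - 2 + 3 := by simp
  simp only [e0, e1, e2, e3]

end Pool.Agent.Work.MP_72ebf0_an.Parked.Counterexample
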